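import Mathlib
import Pool.Agent.TH962.Cap
import Pool.Agent.TH962.Meas

/-!
The hole probability of the Gaussian entire function is not governed by the logarithmic capacity:
for thin rectangles `K` (convex, with capacity at least `1/2`) the exponent
`limsup r^{-4} p_{H,K}(f;r)` is as small as we like, so it is not `(e²/4) c(K)⁴`.

Idea: the function `exp (z²/2)` has no zeros, its normalised Taylor coefficients are at most `1`,
and on the strip `|Im z| ≤ εr` its modulus is at least `exp (|z|²/2 - ε²r²)`.  So it is enough to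
force the first `32 r²` coefficients of `f` to be within `exp (-2ε²r²)` of those of `exp (z²/2)`
(the others are typical), which has probability `exp (-O(ε²) r⁴)`.
-/

set_option autoImplicit false

open Filter Topology Set MeasureTheory ProbabilityTheory

universe u

namespace Pool.Agent.Results.MP_629fb1_pr.CapacityConjectureFails

/-! ### Definitions -/

/-- The standard complex Gaussian law, with density `π⁻¹ exp (-|w|²)` on `ℂ`. -/
noncomputable def stdComplexGaussian : Measure ℂ :=
  (volume : Measure ℂ).withDensity (fun w => ENNReal.ofReal (Real.exp (-‖w‖ ^ 2) / Real.pi))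

/-- The Gaussian entire function `f(z) = ∑ ξ_n z^n / √(n!)`. -/
noncomputable def gef (ξ : ℕ → ℂ) (z : ℂ) : ℂ :=
  ∑' n : ℕ, ξ n * z ^ n / (Real.sqrt (n.factorial : ℝ) : ℂ)

/-- The hole event: `f` has no zero in `rK`. -/
def holeEvent {Ω : Type u} (ξ : ℕ → Ω → ℂ) (K : Set ℂ) (r : ℝ) : Set Ω :=
  {ω | ∀ z ∈ K, gef (fun n => ξ n ω) ((r : ℂ) * z) ≠ 0}

/-- The hole probability exponent `p_{H,K}(f;r) = -log P(f has no zero in rK)`. -/
noncomputable def holeExponent {Ω : Type u} [MeasurableSpace Ω] (P : Measure Ω)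
    (ξ : ℕ → Ω → ℂ) (K : Set ℂ) (r : ℝ) : ℝ :=
  -Real.log (P.real (holeEvent ξ K r))

/-- `∏_{i<j} |w_i - w_j|`. -/
noncomputable def distProd {n : ℕ} (w : Fin n → ℂ) : ℝ :=
  ∏ i : Fin n, ∏ j ∈ Finset.Ioi i, ‖w i - w j‖

/-- The `n`-th diameter `d_n(K) = sup_{w ∈ K^n} ∏_{i<j} |w_i - w_j| ^ (2/(n(n-1)))`. -/
noncomputable def nthDiam (K : Set ℂ) (n : ℕ) : ℝ :=
  (sSup (distProd '' {w : Fin n → ℂ | ∀ i, w i ∈ K})) ^ ((2 : ℝ) / ((n : ℝ) * ((n : ℝ) - 1)))

/-- The logarithmic capacity (transfinite diameter) `c(K) = lim_n d_n(K)`. -/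
noncomputable def logCapacity (K : Set ℂ) : ℝ := limUnder atTop (nthDiam K)

/-! ### Sanity check -/

/-- There is a sequence of independent standard complex Gaussian variables. -/
theorem exists_model : ∃ (P : Measure (ℕ → ℂ)) (ξ : ℕ → (ℕ → ℂ) → ℂ), IsProbabilityMeasure P ∧
    (∀ n, Measurable (ξ n)) ∧ iIndepFun ξ P ∧ ∀ n, P.map (ξ n) = stdComplexGaussian := by
  have : IsProbabilityMeasure stdComplexGaussian :=
    inferInstanceAs (IsProbabilityMeasure Pool.Agent.TH962.Gef.stdGaussian)
  refine ⟨Measure.infinitePi (fun _ : ℕ => stdComplexGaussian), fun n ω => ω n, inferInstance,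
    fun n => measurable_pi_apply n, ?_, ?_⟩
  · exact iIndepFun_infinitePi (fun _ => measurable_id)
  · intro n
    exact Measure.infinitePi_map_eval _ n

/-- **The capacity formula for the hole probability fails**, for convex sets.
For every `0 < η < 1` there is a convex compact set `K ⊂ ℂ`, the closure of its nonempty interior
(hence connected), with logarithmic capacity `c(K) ≥ 1/2`, such that for every probability space
carrying independent standard complex Gaussian variables `ξ_n` the hole event of the Gaussian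
entire function in `rK` is measurable (up to a null set), it has positive probability and
`p_{H,K}(f;r) ≤ η (e²/4) c(K)⁴ r⁴` for all large `r`; in particular `r^{-4} p_{H,K}(f;r)` does not
converge to `(e²/4) c(K)⁴`. -/
theorem result (η : ℝ) (hη0 : 0 < η) (hη1 : η < 1) :
    ∃ K : Set ℂ, IsCompact K ∧ Convex ℝ K ∧ IsConnected K ∧ (interior K).Nonempty ∧
      closure (interior K) = K ∧
      Tendsto (nthDiam K) atTop (𝓝 (logCapacity K)) ∧ 1 / 2 ≤ logCapacity K ∧
      ∀ (Ω : Type u) [MeasurableSpace Ω] (P : Measure Ω) [IsProbabilityMeasure P]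
        (ξ : ℕ → Ω → ℂ), (∀ n, Measurable (ξ n)) → iIndepFun ξ P →
        (∀ n, P.map (ξ n) = stdComplexGaussian) →
        (∀ r : ℝ, NullMeasurableSet (holeEvent ξ K r) P) ∧
        (∀ᶠ r : ℝ in atTop, 0 < P.real (holeEvent ξ K r) ∧
          holeExponent P ξ K r ≤ η * (Real.exp 2 / 4 * logCapacity K ^ 4) * r ^ 4) ∧
        ¬ Tendsto (fun r : ℝ => holeExponent P ξ K r / r ^ 4) atTop
          (𝓝 (Real.exp 2 / 4 * logCapacity K ^ 4)) := by
  obtain ⟨ε, hε0, hε1, hε⟩ : ∃ ε : ℝ, 0 < ε ∧ ε ≤ 1 ∧ ε ^ 2 = η / 1600 := by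
    refine ⟨Real.sqrt (η / 1600), by positivity, ?_, Real.sq_sqrt (by positivity)⟩
    rw [Real.sqrt_le_one]
    linarith
  set K : Set ℂ := Set.Icc (-1 : ℝ) 1 ×ℂ Set.Icc (-ε) ε with hK
  have hcomp : IsCompact K := isCompact_Icc.reProdIm isCompact_Icc
  have hconv : Convex ℝ K :=
    ((convex_Icc (-1 : ℝ) 1).linear_preimage Complex.reLm).inter
      ((convex_Icc (-ε) ε).linear_preimage Complex.imLm)
  have hint : interior K = Set.Ioo (-1 : ℝ) 1 ×ℂ Set.Ioo (-ε) ε := by
    rw [hK, Complex.interior_reProdIm, interior_Icc, interior_Icc]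
  have hne : (interior K).Nonempty := by
    rw [hint]
    exact ⟨0, by simp [Complex.mem_reProdIm, hε0]⟩
  have hseg : ∀ x : ℝ, x ∈ Set.Icc (-1 : ℝ) 1 → (x : ℂ) ∈ K := by
    intro x hx
    rw [hK, Complex.mem_reProdIm]
    exact ⟨by simpa using hx, by simp [hε0.le]⟩
  have hcap : 1 / 2 ≤ logCapacity K := Pool.Agent.TH962.Cap.half_le_logCapacity hcomp hseg
  have hc4 : (1 / 2 : ℝ) ^ 4 ≤ logCapacity K ^ 4 := pow_le_pow_left₀ (by norm_num) hcap 4
  have hcpos : 0 < logCapacity K ^ 4 := lt_of_lt_of_le (by norm_num) hc4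
  have hexp2 : (7.3 : ℝ) ≤ Real.exp 2 := by
    have h := Real.exp_one_gt_d9
    have e : Real.exp 2 = Real.exp 1 * Real.exp 1 := by rw [← Real.exp_add]; norm_num
    rw [e]
    nlinarith
  refine ⟨K, hcomp, hconv, ⟨hne.mono interior_subset, hconv.isPreconnected⟩, hne, ?_,
    Pool.Agent.TH962.Cap.tendsto_nthDiam hcomp, hcap, ?_⟩
  · rw [hint, Complex.closure_reProdIm, closure_Ioo (by norm_num), closure_Ioo (by linarith)]
  · intro Ω _ P _ ξ hm hi hl
    have hmeas : ∀ r : ℝ, NullMeasurableSet (holeEvent ξ K r) P := by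
      intro r
      have h := Pool.Agent.TH962.Gef.nullMeasurable_hole P ξ hm hl
        (C := (fun z : ℂ => (r : ℂ) * z) '' K) (hcomp.image (by fun_prop))
      have e : {ω | ∀ z ∈ (fun z : ℂ => (r : ℂ) * z) '' K,
          Pool.Agent.TH962.Gef.gef (fun n => ξ n ω) z ≠ 0} = holeEvent ξ K r := by
        ext ω
        simp only [Set.forall_mem_image]
        rfl
      rwa [e] at h
    have hev : ∀ᶠ r : ℝ in atTop, 0 < P.real (holeEvent ξ K r) ∧
        holeExponent P ξ K r ≤ η * (Real.exp 2 / 4 * logCapacity K ^ 4) * r ^ 4 := by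
      filter_upwards [Pool.Agent.TH962.Gef.hole_ge P ξ hm hi hl hε0 hε1,
        eventually_gt_atTop (0 : ℝ)] with r hr hr0
      have hsub : {ω | ∀ z : ℂ, |z.re| ≤ r → |z.im| ≤ ε * r →
          Pool.Agent.TH962.Gef.gef (fun n => ξ n ω) z ≠ 0} ⊆ holeEvent ξ K r := by
        intro ω hω z hz
        rw [hK, Complex.mem_reProdIm] at hz
        refine hω _ ?_ ?_
        · rw [Complex.re_ofReal_mul, abs_mul, abs_of_pos hr0]
          have : |z.re| ≤ 1 := abs_le.2 hz.1
          nlinarith
        · rw [Complex.im_ofReal_mul, abs_mul, abs_of_pos hr0]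
          have : |z.im| ≤ ε := abs_le.2 hz.2
          nlinarith
      have hle : Real.exp (-(133 * ε ^ 2 * r ^ 4)) ≤ P.real (holeEvent ξ K r) :=
        hr.trans (measureReal_mono hsub (measure_ne_top _ _))
      have hpos : 0 < P.real (holeEvent ξ K r) := (Real.exp_pos _).trans_le hle
      refine ⟨hpos, ?_⟩
      unfold holeExponent
      have h1 : -(133 * ε ^ 2 * r ^ 4) ≤ Real.log (P.real (holeEvent ξ K r)) :=
        (Real.le_log_iff_exp_le hpos).2 hle
      have h2 : 133 * ε ^ 2 ≤ η * (Real.exp 2 / 4 * logCapacity K ^ 4) := by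
        rw [hε]
        have h3 : (133 / 1600 : ℝ) ≤ Real.exp 2 / 4 * logCapacity K ^ 4 := by
          have : (7.3 / 4 * (1 / 2) ^ 4 : ℝ) ≤ Real.exp 2 / 4 * logCapacity K ^ 4 := by gcongr
          refine le_trans (by norm_num) this
        nlinarith
      have h4 : 133 * ε ^ 2 * r ^ 4 ≤ η * (Real.exp 2 / 4 * logCapacity K ^ 4) * r ^ 4 := by
        gcongr
      linarith
    refine ⟨hmeas, hev, ?_⟩
    intro hT
    set L := Real.exp 2 / 4 * logCapacity K ^ 4 with hL
    have hLpos : 0 < L := by positivity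
    have hle : L ≤ η * L := by
      refine le_of_tendsto hT ?_
      filter_upwards [hev, eventually_gt_atTop (0 : ℝ)] with r hr hr0
      rw [div_le_iff₀ (by positivity)]
      exact hr.2
    nlinarith

end Pool.Agent.Results.MP_629fb1_pr.CapacityConjectureFails
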